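import Pool.Agent.W269.BL.Stm

set_option autoImplicit false

open Polynomial

namespace Pool.Agent.W802.BL.EF

open Pool.Agent.W269.BL

universe u

theorem main : StmEF.{u} := by
  intro K _ _ p _ _ U z hU
  classical
  set r : K[X] := UniqueFactorizationMonoid.radical U with hr
  have hr0 : r ≠ 0 := UniqueFactorizationMonoid.radical_ne_zero
  set S : K[X] := normalize r with hS
  have hSm : S.Monic := monic_normalize hr0
  have hsq : Squarefree S := by
    have h1 : Squarefree r := UniqueFactorizationMonoid.squarefree_radical
    exact h1.squarefree_of_dvd (normalize_dvd_iff.2 dvd_rfl)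
  have hdvd : ∀ P : K[X], Irreducible P → P ∣ U → P ∣ S := by
    intro P hP hPU
    rw [hS, dvd_normalize_iff]
    exact (UniqueFactorizationMonoid.dvd_radical_iff_of_irreducible hP hU).2 hPU
  by_cases hu : IsUnit S
  · refine ⟨S, 0, hSm, fun h _ P hP hPU => ?_⟩
    exact absurd (isUnit_of_dvd_unit (hdvd P hP hPU) hu) hP.not_isUnit
  · let R := K[X] ⧸ Ideal.span {S}
    haveI : Nontrivial R := by
      apply Ideal.Quotient.nontrivial_iff.2
      rw [Ne, Ideal.span_singleton_eq_top]
      exact hu
    haveI : CharP R p := charP_of_injective_ringHom (algebraMap K R).injective p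
    haveI : IsReduced R := by
      rw [← Ideal.isRadical_iff_quotient_reduced, ← isRadical_iff_span_singleton]
      exact hsq.isRadical
    haveI : Finite R := by
      haveI : Module.Finite K (AdjoinRoot S) := hSm.finite_adjoinRoot
      have h2 : Finite (AdjoinRoot S) := Module.finite_of_finite K
      exact h2
    have hsurj : Function.Surjective (frobenius R p) :=
      Finite.injective_iff_surjective.1 (frobenius_inj R p)
    obtain ⟨w, hw⟩ := hsurj (Ideal.Quotient.mk _ z)
    obtain ⟨h₀, rfl⟩ := Ideal.Quotient.mk_surjective w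
    refine ⟨S, h₀, hSm, fun h hh P hP hPU => ?_⟩
    refine (hdvd P hP hPU).trans ?_
    have h1 : (Ideal.Quotient.mk (Ideal.span {S})) h = (Ideal.Quotient.mk (Ideal.span {S})) h₀ := by
      rw [Ideal.Quotient.eq, Ideal.mem_span_singleton]
      exact hh
    rw [← Ideal.mem_span_singleton, ← Ideal.Quotient.eq, map_pow, h1, ← hw, frobenius_def]

end Pool.Agent.W802.BL.EF
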